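import Pool.Agent.helper59.FI4.SpecI

set_option autoImplicit false

namespace Pool.Agent.FI4I

open Pool.Agent.helper58.DC Pool.Agent.DI Pool.Agent.GR Pool.Agent.OB Pool.Agent.DR Pool.Agent.FI Pool.Agent.FI3 Pool.Agent.FI4

/-- The cardinality of `H.subgroupOf N` for `H ≤ N`. -/
theorem TR3_card {G : Type} [Group G] {N H : Subgroup G} (h : H ≤ N) :
    Nat.card (H.subgroupOf N) = Nat.card H :=
  Nat.card_congr (Subgroup.subgroupOfEquivOfLe h).toEquiv

/-- The relative index in the type `N`. -/
theorem TR3_rel {G : Type} [Group G] {N K H : Subgroup G} (h : H ≤ N) :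
    (K.subgroupOf N).relIndex (H.subgroupOf N) = K.relIndex H := by
  rw [Subgroup.relIndex_subgroupOf h]

theorem TR3 : TR3_stmt := by
  intro p G _ _ N
  refine ⟨?_, ?_, ?_, ?_, ?_⟩
  · intro D hD
    constructor
    · ext n
      rw [Subgroup.mem_subgroupOf, Subgroup.mem_centralizer_iff, Subgroup.mem_centralizer_iff]
      constructor
      · intro h d hd
        exact congrArg Subtype.val (h ⟨d, hD hd⟩ hd)
      · intro h d hd
        exact Subtype.ext (h d hd)
    · ext n
      rw [Subgroup.mem_subgroupOf, Subgroup.mem_normalizer_iff, Subgroup.mem_normalizer_iff]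
      constructor
      · intro h d
        constructor
        · intro hd
          exact (h ⟨d, hD hd⟩).1 hd
        · intro hd
          have hdN : d ∈ N := by
            have h1 : (n : G) * d * (n : G)⁻¹ ∈ N := hD hd
            have h2 := N.mul_mem (N.mul_mem (N.inv_mem n.2) h1) n.2
            simpa [mul_assoc] using h2
          exact (h ⟨d, hdN⟩).2 hd
      · intro h d
        exact h d
  · intro H hH
    exact ⟨TR3_card hH, ⟨fun h => h.of_equiv (Subgroup.subgroupOfEquivOfLe hH),
      fun h => h.of_equiv (Subgroup.subgroupOfEquivOfLe hH).symm⟩⟩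
  · intro H hH y
    have h1 : Cz (H.subgroupOf N) y = (Cz H (y : G)).subgroupOf N := by
      ext n
      rw [Subgroup.mem_subgroupOf]
      unfold Cz
      rw [Subgroup.mem_inf, Subgroup.mem_inf, Subgroup.mem_subgroupOf,
        Subgroup.mem_centralizer_iff, Subgroup.mem_centralizer_iff]
      constructor
      · rintro ⟨h, h'⟩
        refine ⟨h, ?_⟩
        intro z hz
        rw [Set.mem_singleton_iff] at hz
        rw [hz]
        exact congrArg Subtype.val (h' y rfl)
      · rintro ⟨h, h'⟩
        refine ⟨h, ?_⟩
        intro z hz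
        rw [Set.mem_singleton_iff] at hz
        rw [hz]
        exact Subtype.ext (h' (y : G) rfl)
    refine ⟨h1, ?_⟩
    have h2 : Cz H (y : G) ≤ N := (inf_le_left : H ⊓ _ ≤ H).trans hH
    rw [h1]
    unfold pp
    rw [TR3_card h2]
  · intro y
    constructor
    · unfold PReg
      rw [Subgroup.orderOf_coe]
    · unfold PEl
      constructor
      · rintro ⟨k, hk⟩
        exact ⟨k, congrArg Subtype.val hk⟩
      · rintro ⟨k, hk⟩
        exact ⟨k, Subtype.ext hk⟩
  · intro K H _ hH
    exact TR3_rel hH

end Pool.Agent.FI4I
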